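import Pool.Agent.Lib.MP_688fd0_co.LP.Menger
import Pool.Agent.Lib.MP_688fd0_co.LP.VT.Homog

/-!
Linear length in all Cayley graphs: definitions.  See Paper.md in this folder.
-/

set_option autoImplicit false

namespace Pool.Agent.Lib.MP_688fd0_co.LIN

open Classical
open Pool.Agent.Lib.MP_688fd0_co.LP (IsP Conn Cyc Symm cay)

section graph
variable {V : Type*} [Fintype V]

/-- degree of a vertex -/
noncomputable def dg (H : SimpleGraph V) (v : V) : ℕ := (Finset.univ.filter (fun w => H.Adj v w)).card

/-- `H` is a family of pairwise disjoint cycles of `G`. -/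
structure CF (G H : SimpleGraph V) : Prop where
  le : H ≤ G
  deg : ∀ v, dg H v = 0 ∨ dg H v = 2

/-- covered vertices -/
noncomputable def cov (H : SimpleGraph V) : Finset V := Finset.univ.filter (fun v => ∃ w, H.Adj v w)

/-- vertex set of the component of `v` in `H` -/
noncomputable def cyc (H : SimpleGraph V) (v : V) : Finset V := Finset.univ.filter (fun w => H.Reachable v w)

/-- the set of cycles (as vertex sets) of `H` -/
noncomputable def cycs (H : SimpleGraph V) : Finset (Finset V) := (cov H).image (cyc H)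

/-- number of cycles -/
noncomputable def ncyc (H : SimpleGraph V) : ℕ := (cycs H).card

/-- the potential -/
noncomputable def phi (l : ℕ) (H : SimpleGraph V) : ℤ := ((cov H).card : ℤ) - l * ncyc H

/-- `H` maximises the potential `phi l` among the cycle families of `G`. -/
def Opt (G : SimpleGraph V) (l : ℕ) (H : SimpleGraph V) : Prop := CF G H ∧ ∀ H', CF G H' → phi l H' ≤ phi l H

/-- A connection from class `i`: a path of `G` from class `i` to another class, inner vertices in no class. -/
def IsConn (G : SimpleGraph V) {ι : Type*} (cls : V → Option ι) (i : ι) (l : List V) : Prop :=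
  IsP G l ∧ (∃ a, l.head? = some a ∧ cls a = some i) ∧
    (∃ b j, l.getLast? = some b ∧ cls b = some j ∧ j ≠ i) ∧ (∀ v ∈ l.tail.dropLast, cls v = none)

/-- fewer than `u` vertices do not separate class `i` from the other classes. -/
def Iso (G : SimpleGraph V) {ι : Type*} (cls : V → Option ι) (i : ι) (u : ℕ) : Prop :=
  ∀ Y : Finset V, Y.card < u → ∃ l : List V, IsP G l ∧ (∃ a, l.head? = some a ∧ cls a = some i) ∧
    (∃ b j, l.getLast? = some b ∧ cls b = some j ∧ j ≠ i) ∧ ∀ v ∈ l, v ∉ Y

/-- the class of a vertex = its cycle (`none` for uncovered vertices). -/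
noncomputable def hcls (H : SimpleGraph V) (v : V) : Option (Finset V) := if v ∈ cov H then some (cyc H v) else none

/-- pairwise disjoint lists -/
def PD (Q : Finset (List V)) : Prop := ∀ l ∈ Q, ∀ l' ∈ Q, l ≠ l' → List.Disjoint l l'

/-- `a`, `b` are consecutive in `l` (in one of the two orders). -/
def pe (l : List V) (a b : V) : Prop := [a, b] <:+: l ∨ [b, a] <:+: l

/-- `v` is the first or the last vertex of `l`. -/
def IsEnd (l : List V) (v : V) : Prop := l.head? = some v ∨ l.getLast? = some v

/-- an arc of `H`: at least two distinct vertices, consecutive ones `H`-adjacent. -/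
def IsArc (H : SimpleGraph V) (l : List V) : Prop := l.IsChain H.Adj ∧ l.Nodup ∧ 2 ≤ l.length

/-- `H` without the edges of the arcs -/
def restG (H : SimpleGraph V) (arcs : Finset (List V)) : SimpleGraph V where
  Adj a b := H.Adj a b ∧ ∀ l ∈ arcs, ¬ pe l a b
  symm := ⟨fun a b h => ⟨h.1.symm, fun l hl hp => h.2 l hl hp.symm⟩⟩
  loopless := ⟨fun a h => H.loopless.irrefl a h.1⟩

/-- the new graph of a surgery -/
def newG (H : SimpleGraph V) (arcs cons : Finset (List V)) : SimpleGraph V where
  Adj a b := (H.Adj a b ∧ ∀ l ∈ arcs, ¬ pe l a b) ∨ (a ≠ b ∧ ∃ l ∈ cons, pe l a b)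
  symm := ⟨by
    rintro a b (h | ⟨h, l, hl, hp⟩)
    · exact Or.inl ⟨h.1.symm, fun l hl hp => h.2 l hl hp.symm⟩
    · exact Or.inr ⟨h.symm, l, hl, hp.symm⟩⟩
  loopless := ⟨by
    rintro a (h | ⟨h, _⟩)
    · exact H.loopless.irrefl a h.1
    · exact h rfl⟩

/-- data of a surgery -/
structure Surg (G H : SimpleGraph V) (arcs cons : Finset (List V)) : Prop where
  cf : CF G H
  arc : ∀ l ∈ arcs, IsArc H l
  arc_disj : PD arcs
  con : ∀ l ∈ cons, IsP G l ∧ 2 ≤ l.length ∧ ∀ v ∈ l.tail.dropLast, v ∉ cov H
  con_disj : PD cons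
  ends : ∀ v, (∃ l ∈ arcs, IsEnd l v) ↔ (∃ l ∈ cons, IsEnd l v)
  diff : ∀ l ∈ cons, ∀ a b, l.head? = some a → l.getLast? = some b → ¬ H.Adj a b

/-- vertices that are ends of arcs -/
noncomputable def endsOf (arcs : Finset (List V)) : Finset V := Finset.univ.filter (fun v => ∃ l ∈ arcs, IsEnd l v)

/-- outer vertex boundary -/
noncomputable def bd (G : SimpleGraph V) (W : Finset V) : Finset V :=
  Finset.univ.filter (fun y => y ∉ W ∧ ∃ x ∈ W, G.Adj x y)

/-- ball for the graph distance -/
noncomputable def bl (G : SimpleGraph V) (x : V) (r : ℕ) : Finset V := Finset.univ.filter (fun y => G.dist x y ≤ r)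

/-- size of a ball of radius `r` (all of them have the same size if `G` is vertex transitive) -/
noncomputable def bn (G : SimpleGraph V) (r : ℕ) : ℕ := Finset.univ.sup (fun x => (bl G x r).card)

/-- connected vertex-transitive graph -/
structure VT (G : SimpleGraph V) : Prop where
  conn : G.Connected
  tr : ∀ x y : V, ∃ φ : G ≃g G, φ x = y

/-- `γ 0, ..., γ L` is a geodesic. -/
def Geo (G : SimpleGraph V) (γ : ℕ → V) (L : ℕ) : Prop := ∀ i j, i ≤ j → j ≤ L → G.dist (γ i) (γ j) = j - i

/-- `D` is the diameter. -/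
def Diam (G : SimpleGraph V) (D : ℕ) : Prop := (∀ x y, G.dist x y ≤ D) ∧ ∃ x y, G.dist x y = D

/-- the neighbourhood of radius `w` of the middle part of a geodesic -/
noncomputable def om (G : SimpleGraph V) (γ : ℕ → V) (w D : ℕ) : Finset V :=
  Finset.univ.filter (fun x => ∃ t, 15 * w ≤ t ∧ t + 15 * w ≤ D ∧ G.dist x (γ t) ≤ w)

/-- a cycle family of `G` with potential at least `x * |V|` -/
def Rat (G : SimpleGraph V) (l : ℕ) (x : ℝ) : Prop := ∃ H, CF G H ∧ x * (Fintype.card V : ℝ) ≤ ((phi l H : ℤ) : ℝ)

end graph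

section group
variable {Γ : Type*} [Group Γ]

/-- the Cayley graph of the subgroup generated by `T` -/
def lv (T : Finset Γ) : SimpleGraph ↥(Subgroup.closure (T : Set Γ)) :=
  (cay T).comap (fun x : ↥(Subgroup.closure (T : Set Γ)) => (x : Γ))

/-- the generating sets of a chain -/
noncomputable def chT (A0 : Finset Γ) (a : ℕ → Γ) : ℕ → Finset Γ
  | 0 => A0
  | j + 1 => insert (a j) (insert (a j)⁻¹ (chT A0 a j))

end group

end Pool.Agent.Lib.MP_688fd0_co.LIN
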