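import Pool.Agent.Lib.MP_688fd0_co.LIN.H15.Sep
import Pool.Agent.Lib.MP_688fd0_co.LIN.H18.Main2
import Pool.Agent.Lib.MP_688fd0_co.LIN.H22.Iso
import Pool.Agent.Lib.MP_688fd0_co.LIN.H28.Level
import Pool.Agent.Lib.MP_688fd0_co.LIN.H28.Ling
import Pool.Agent.Lib.MP_688fd0_co.LIN.H28.Omega
import Pool.Agent.Lib.MP_688fd0_co.LIN.H3.Chainc
import Pool.Agent.Lib.MP_688fd0_co.LIN.H34.Geoc
import Pool.Agent.Lib.MP_688fd0_co.LIN.H42.Count
import Pool.Agent.Lib.MP_688fd0_co.LIN.H42.Gluec
import Pool.Agent.Lib.MP_688fd0_co.LIN.H42.Merge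
import Pool.Agent.Lib.MP_688fd0_co.LIN.H42.Surg1
import Pool.Agent.Lib.MP_688fd0_co.LIN.H43.Enum
import Pool.Agent.Lib.MP_688fd0_co.LIN.H43.Windows
import Pool.Agent.Lib.MP_688fd0_co.LIN.H51.Start
import Pool.Agent.Lib.MP_688fd0_co.LIN.H53.Growth
import Pool.Agent.Lib.MP_688fd0_co.LIN.H53.Surg2
import Pool.Agent.Lib.MP_688fd0_co.LIN.H60.StepB
import Pool.Agent.Lib.MP_688fd0_co.LIN.H61.Endc
import Pool.Agent.Lib.MP_688fd0_co.LIN.H63.Next
import Pool.Agent.Lib.MP_688fd0_co.LIN.H63.Step
import Pool.Agent.Lib.MP_688fd0_co.LIN.H68.Block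
import Pool.Agent.Lib.MP_688fd0_co.LIN.H85.StepA
import Pool.Agent.Lib.MP_688fd0_co.LIN.H89.Ring
import Pool.Agent.Lib.MP_688fd0_co.LIN.H98.Lift

/-!
Linear length in all Cayley graphs: assembly of all modules.
-/

set_option autoImplicit false

namespace Pool.Agent.Lib.MP_688fd0_co.LIN

universe u

theorem all_merge : MergeStatement.{u} := H42.merge H42.surg1 H53.surg2

theorem all_step : StepStatement.{u} :=
  H63.step H15.opt (H43.windows H43.enum) (H85.stepa all_merge H15.opt H15.sep H15.mass)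
    (H60.stepB H42.surg1 H53.surg2 H42.count)

theorem all_next : NextStatement.{u} :=
  H63.next all_step (H22.iso H89.base H89.mono) H15.opt H43.enum

theorem all_omega : OmegaStatement.{u} := H28.omega_st H89.line H89.base

theorem all_ling : LingStatement.{u} := H28.ling H89.line H89.geo H89.base

theorem all_endc : EndcStatement.{u} :=
  H61.endc (H68.block (H28.omega_st H89.line H89.base) all_merge H15.opt H43.enum) H89.ring
    (H3.chainc (H28.omega_st H89.line H89.base) (H42.gluec H43.enum) H43.enum)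
    (H28.omega_st H89.line H89.base) (H28.ling H89.line H89.geo H89.base) H89.geo H89.base H15.opt H15.mass H43.enum

theorem all_main1c : Main1cStatement.{u} :=
  H18.main1c all_next all_endc (H34.geoc H89.ring H89.geo) (H51.start H51.peel H89.base H15.opt)
    H15.opt H15.mass H89.base (H28.ling H89.line H89.geo H89.base) H28.level H98.chain H98.ball4 H98.lift
    (H53.growth H89.base) H53.growth2

theorem all_main2f : H18.Main2fStatement.{u} :=
  H18.main2f all_next H15.opt H89.base (H28.ling H89.line H89.geo H89.base) H28.level H98.lift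
    (H53.growth H89.base)

end Pool.Agent.Lib.MP_688fd0_co.LIN
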