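import Pool.Agent.Lib.MP_688fd0_co.LIN.Defs

/-!
Linear length in all Cayley graphs: module statements.  Proofs: Paper.md and Blueprint.md in this folder.
All graphs are on a finite type `V`; `cls : V → Option ι` gives the class of a vertex.
-/

set_option autoImplicit false

namespace Pool.Agent.Lib.MP_688fd0_co.LIN

open Classical
open Pool.Agent.Lib.MP_688fd0_co.LP (IsP Conn Cyc Symm cay)

universe u

/-! ### Group A: simultaneous connections (section 2), any finite graph -/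

/-- REGION (2a): region growing. -/
def RegionStatement : Prop := ∀ (V : Type u) [Fintype V] (ι : Type u) [Fintype ι] (G : SimpleGraph V) (d q : ℕ),
  (∀ v, dg G v ≤ d) → ∀ (cls : V → Option ι) (I : Finset ι), (∀ i ∈ I, Iso G cls i q) →
  ∀ (y : V → ℕ) (z : ι → ℕ) (ρ : ℕ), (d + 1) * (∑ v, y v + q * ∑ i ∈ I, z i) < q * I.card * ρ →
  ∃ i ∈ I, ∃ l : List V, IsConn G cls i l ∧ z i + (l.map y).sum < 2 * ρ

/-- MW (2b): multiplicative weights. -/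
def MwStatement : Prop := ∀ (V : Type u) [Fintype V] (ι : Type u) [Fintype ι] (G : SimpleGraph V) (d q : ℕ),
  (∀ v, dg G v ≤ d) → ∀ (cls : V → Option ι) (I : Finset ι), (∀ i ∈ I, Iso G cls i q) → 1 ≤ q → I.Nonempty →
  ∃ (T : ℕ) (src : Fin T → ι) (slot : Fin T → Fin q) (P : Fin T → List V) (c : ℕ), 0 < T ∧
    (∀ t, src t ∈ I ∧ IsConn G cls (src t) (P t)) ∧
    (∀ v, (Finset.univ.filter (fun t => v ∈ P t)).card ≤ c) ∧
    (∀ i a, (Finset.univ.filter (fun t => src t = i ∧ slot t = a)).card ≤ c) ∧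
    q * I.card * c ≤ 6 * (d + 1) * T

/-- MDC (Lemma 2): many disjoint connections. -/
def MdcStatement : Prop := ∀ (V : Type u) [Fintype V] (ι : Type u) [Fintype ι] (G : SimpleGraph V) (d q : ℕ),
  (∀ v, dg G v ≤ d) → ∀ (cls : V → Option ι) (I : Finset ι), (∀ i ∈ I, Iso G cls i q) →
  ∃ (Q : Finset (List V)) (src : List V → ι),
    (∀ l ∈ Q, src l ∈ I ∧ IsConn G cls (src l) l) ∧ PD Q ∧
    (∀ i, (Q.filter (fun l => src l = i)).card ≤ q) ∧ q * I.card ≤ 24 * (d + 1) * Q.card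

/-! ### Group B: cycle families and surgery (section 3) -/

/-- ENUM: the vertices of a cycle in cyclic order. -/
def EnumStatement : Prop := ∀ (V : Type u) [Fintype V] (G H : SimpleGraph V), CF G H → ∀ v ∈ cov H,
  ∃ c : List V, Cyc H c ∧ ∀ w, w ∈ c ↔ H.Reachable v w

/-- WINDOWS: cutting the cycles into lists of length at most `w`. -/
def WindowsStatement : Prop := ∀ (V : Type u) [Fintype V] (G H : SimpleGraph V), CF G H → ∀ w : ℕ, 1 ≤ w →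
  (∀ v ∈ cov H, w ≤ (cyc H v).card) → ∃ W : Finset (List V),
    (∀ l ∈ W, l ≠ [] ∧ l.Nodup ∧ l.IsChain H.Adj ∧ l.length ≤ w ∧ ∀ v ∈ l, v ∈ cov H) ∧ PD W ∧
    (∀ v ∈ cov H, ∃ l ∈ W, v ∈ l) ∧
    (∀ v ∈ cov H, w * (W.filter (fun l => ∀ x ∈ l, H.Reachable v x)).card ≤ 2 * (cyc H v).card) ∧
    w * W.card ≤ 2 * (cov H).card

/-- SURG1 (S1, S2). -/
def Surg1Statement : Prop := ∀ (V : Type u) [Fintype V] (G H : SimpleGraph V) (arcs cons : Finset (List V)),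
  Surg G H arcs cons → CF G (newG H arcs cons) ∧
    (cov H).card ≤ (cov (newG H arcs cons)).card + ∑ l ∈ arcs, (l.length - 2)

/-- SURG2 (S3). -/
def Surg2Statement : Prop := ∀ (V : Type u) [Fintype V] (G H : SimpleGraph V) (arcs cons : Finset (List V)),
  Surg G H arcs cons → ncyc (newG H arcs cons) + ((endsOf arcs).image (cyc H)).card ≤
    ncyc H + ((endsOf arcs).image (cyc (newG H arcs cons))).card

/-- PARTNER: the component of an end of an arc in `restG` contains another end of an arc (handshake lemma). -/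
def PartnerStatement : Prop := ∀ (V : Type u) [Fintype V] (G H : SimpleGraph V) (arcs : Finset (List V)),
  CF G H → (∀ l ∈ arcs, IsArc H l) → PD arcs → ∀ p ∈ endsOf arcs,
  ∃ p' ∈ endsOf arcs, p' ≠ p ∧ (restG H arcs).Reachable p p'

/-- COUNT (S4): `mv` = arcs on movers, `bs` = arcs on bases. -/
def CountStatement : Prop := ∀ (V : Type u) [Fintype V] (G H : SimpleGraph V) (mv bs cons : Finset (List V)) (Δ : ℕ),
  Surg G H (mv ∪ bs) cons → Disjoint mv bs →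
  (∀ l ∈ mv, ∀ l' ∈ mv ∪ bs, l' ≠ l → ∀ x ∈ l, ∀ y ∈ l', ¬ H.Reachable x y) →
  (∀ l ∈ cons, (∃ s ∈ mv, ∃ a, l.head? = some a ∧ IsEnd s a) ∧ (∃ s ∈ bs, ∃ b, l.getLast? = some b ∧ IsEnd s b)) →
  (∀ l ∈ cons, ∀ l' ∈ cons, l ≠ l' → ∀ a a' b b', l.head? = some a → l'.head? = some a' → H.Reachable a a' →
    l.getLast? = some b → l'.getLast? = some b' → H.Reachable b b' → Δ ≤ H.dist b b') →
  2 * Δ * ((endsOf (mv ∪ bs)).image (cyc (newG H (mv ∪ bs) cons))).card ≤ Δ * mv.card + 2 * (cov H).card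

/-- MERGE (S5). -/
def MergeStatement : Prop := ∀ (V : Type u) [Fintype V] (G H : SimpleGraph V) (l : ℕ) (α β c c' : List V),
  CF G H → IsArc H α → IsArc H β → (∀ x ∈ α, ∀ y ∈ β, ¬ H.Reachable x y) →
  IsP G c → IsP G c' → (∀ v ∈ c.tail.dropLast, v ∉ cov H) → (∀ v ∈ c'.tail.dropLast, v ∉ cov H) →
  List.Disjoint c c' → c.head? = α.head? → c'.head? = α.getLast? → c.getLast? = β.head? →
  c'.getLast? = β.getLast? →
  ∃ H', CF G H' ∧ phi l H + l + 4 ≤ phi l H' + α.length + β.length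

/-- OPT: optimal families exist; their cycles are long and the rest has no long cycle. -/
def OptStatement : Prop := ∀ (V : Type u) [Fintype V] (G : SimpleGraph V) (l : ℕ),
  (∃ H, Opt G l H) ∧ ∀ H, Opt G l H → (∀ v ∈ cov H, l ≤ (cyc H v).card ∧ 3 ≤ (cyc H v).card) ∧
    (∀ c, Cyc G c → (∀ v ∈ c, v ∉ cov H) → c.length ≤ l) ∧ 0 ≤ phi l H

/-- MASS: sizes of cycles add up. -/
def MassStatement : Prop := ∀ (V : Type u) [Fintype V] (H : SimpleGraph V), ∑ S ∈ cycs H, S.card = (cov H).card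

/-! ### Group C: combinatorial lemmas for the step (section 4) -/

/-- MULTI: large 2-regular part of a multigraph. -/
def MultiStatement : Prop := ∀ (α β : Type u) (S : Finset α) (E : Finset β) (f g : β → α) (D : ℕ),
  (∀ e ∈ E, f e ∈ S ∧ g e ∈ S ∧ f e ≠ g e) →
  (∀ a ∈ S, (E.filter (fun e => f e = a ∨ g e = a)).card ≤ D) →
  ∃ Z ⊆ E, (∀ a, (Z.filter (fun e => f e = a ∨ g e = a)).card = 0 ∨ (Z.filter (fun e => f e = a ∨ g e = a)).card = 2) ∧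
    Z.card = (S.filter (fun a => (Z.filter (fun e => f e = a ∨ g e = a)).card = 2)).card ∧
    E.card ≤ S.card + D * Z.card

/-- SEP: far apart subset. -/
def SepStatement : Prop := ∀ (V : Type u) [Fintype V] (G H : SimpleGraph V), CF G H → ∀ w : ℕ, 1 ≤ w →
  (∀ v ∈ cov H, 16 * w ≤ (cyc H v).card) → ∀ P ⊆ cov H,
  (∀ p ∈ P, ∀ p' ∈ P, p ≠ p' → H.Reachable p p' → 15 * w ≤ H.dist p p') → ∀ D1 : ℕ, 3 ≤ D1 →
  ∃ P' ⊆ P, (∀ p ∈ P', ∀ p' ∈ P', p ≠ p' → H.Reachable p p' → D1 * w ≤ H.dist p p') ∧ P.card ≤ D1 * P'.card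

/-- PAIR: disjoint infixes with ends in a given set. -/
def PairStatement : Prop := ∀ (α : Type u) (l : List α), l.Nodup → ∀ P : Finset α, ∃ F : Finset (List α),
  (∀ s ∈ F, s <:+: l ∧ 2 ≤ s.length ∧ (∃ a ∈ P, s.head? = some a) ∧ (∃ b ∈ P, s.getLast? = some b)) ∧
  (∀ s ∈ F, ∀ s' ∈ F, s ≠ s' → List.Disjoint s s') ∧ (P.filter (fun a => a ∈ l)).card ≤ 2 * F.card + 1

/-- HALF: random choice of movers. -/
def HalfStatement : Prop := ∀ (α ι : Type u) (Q : Finset α) (s t : α → ι) (I : Finset ι),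
  (∀ q ∈ Q, s q ≠ t q ∧ s q ∈ I) → ∃ M ⊆ I, Q.card ≤ 4 * (Q.filter (fun q => s q ∈ M ∧ t q ∉ M)).card

/-- The connections that are kept: `M'` = good movers, each with exactly `q0` kept connections, starting in one window
of the mover, landing on cycles outside `M'`, far apart (`H`-distance at least `Δ`) on each of them. -/
structure Kept {V : Type u} [Fintype V] (G H : SimpleGraph V) (Δ q0 : ℕ) (W : Finset (List V))
    (M' : Finset (Finset V)) (K : Finset (List V)) : Prop where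
  mem : M' ⊆ cycs H
  conn : ∀ l ∈ K, ∃ S ∈ M', IsConn G (hcls H) S l
  disj : PD K
  tgt : ∀ l ∈ K, ∀ b, l.getLast? = some b → cyc H b ∉ M'
  card : ∀ S ∈ M', (K.filter (fun l => IsConn G (hcls H) S l)).card = q0
  win : ∀ l ∈ K, ∀ l' ∈ K, ∀ a a', l.head? = some a → l'.head? = some a' → H.Reachable a a' →
    ∃ W0 ∈ W, a ∈ W0 ∧ a' ∈ W0
  sep : ∀ l ∈ K, ∀ l' ∈ K, l ≠ l' → ∀ a a' b b', l.head? = some a → l'.head? = some a' → H.Reachable a a' →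
    l.getLast? = some b → l'.getLast? = some b' → H.Reachable b b' → Δ ≤ H.dist b b'

/-- STEPA: getting the kept connections. -/
def StepAStatement : Prop := ∀ (V : Type u) [Fintype V] (G H : SimpleGraph V) (d l K q : ℕ) (W : Finset (List V)),
  (∀ v, dg G v ≤ d) → Opt G l H → 1 ≤ K → 16 ≤ l → (∀ S ∈ cycs H, Iso G (hcls H) S q) →
  2 ^ 51 * (d + 1) ^ 3 * K ^ 3 ≤ q → 2 ≤ ncyc H → (cov H).card ≤ K * l * ncyc H →
  (∀ l' ∈ W, l' ≠ [] ∧ l'.Nodup ∧ l'.IsChain H.Adj ∧ l'.length ≤ l / 16 ∧ ∀ v ∈ l', v ∈ cov H) → PD W →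
  (∀ v ∈ cov H, ∃ l' ∈ W, v ∈ l') →
  (∀ v ∈ cov H, (l / 16) * (W.filter (fun l' => ∀ x ∈ l', H.Reachable v x)).card ≤ 2 * (cyc H v).card) →
  ∃ (M' : Finset (Finset V)) (Kp : Finset (List V)),
    Kept G H (2 ^ 20 * (d + 1) * K * (l / 16)) (49152 * (d + 1) * K) W M' Kp ∧ ncyc H ≤ 384 * (d + 1) * M'.card

/-- STEPB: kept connections give a better family. -/
def StepBStatement : Prop := ∀ (V : Type u) [Fintype V] (G H : SimpleGraph V) (d l K : ℕ) (W : Finset (List V))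
  (M' : Finset (Finset V)) (Kp : Finset (List V)),
  Opt G l H → 1 ≤ K → 16 ≤ l → 2 ≤ ncyc H → (cov H).card ≤ K * l * ncyc H →
  (∀ l' ∈ W, l' ≠ [] ∧ l'.Nodup ∧ l'.IsChain H.Adj ∧ l'.length ≤ l / 16 ∧ ∀ v ∈ l', v ∈ cov H) → PD W →
  (∀ v ∈ cov H, ∃ l' ∈ W, v ∈ l') → (l / 16) * W.card ≤ 2 * (cov H).card →
  Kept G H (2 ^ 20 * (d + 1) * K * (l / 16)) (49152 * (d + 1) * K) W M' Kp → ncyc H ≤ 384 * (d + 1) * M'.card → False

/-- STEP (Lemma 4). -/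
def StepStatement : Prop := ∀ (V : Type u) [Fintype V] (G H : SimpleGraph V) (d l K q : ℕ),
  (∀ v, dg G v ≤ d) → Opt G l H → 1 ≤ K → 16 ≤ l → (∀ S ∈ cycs H, Iso G (hcls H) S q) →
  2 ^ 51 * (d + 1) ^ 3 * K ^ 3 ≤ q → 2 ≤ ncyc H → K * l * ncyc H < (cov H).card

/-! ### Group D: vertex-transitive graphs -/

/-- BASE: balls in vertex-transitive graphs, isoperimetry. -/
def BaseStatement : Prop := ∀ (V : Type u) [Fintype V] (G : SimpleGraph V), VT G →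
  (∀ x r, (bl G x r).card = bn G r) ∧ (∀ W : Finset V, ∀ s, 2 * W.card ≤ bn G s → W.card ≤ 2 * s * (bd G W).card) ∧
  (∀ d, (∀ v, dg G v ≤ d) → ∀ r, bn G (r + 1) ≤ (d + 1) * bn G r) ∧ bn G 0 = 1 ∧
  (∀ r s, r ≤ s → bn G r ≤ bn G s) ∧ (∀ D, Diam G D → bn G D = Fintype.card V) ∧ (∃ D, Diam G D)

/-- MONO (M). -/
def MonoStatement : Prop := ∀ (V : Type u) [Fintype V] (G : SimpleGraph V), VT G → ∀ D, Diam G D →
  ∀ r r', r ≤ r' → r' ≤ D → (r' + 1) * bn G r ≤ 4 * (r + 1) * bn G r'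

/-- ISO (section 1). -/
def IsoStatement : Prop := ∀ (V : Type u) [Fintype V] (G H : SimpleGraph V), VT G → CF G H → ∀ l q r : ℕ,
  (∀ v ∈ cov H, l ≤ (cyc H v).card) → 2 ≤ ncyc H → bn G r < l → 16 * (r + 1) * q ≤ bn G r →
  ∀ S ∈ cycs H, Iso G (hcls H) S q

/-- PEEL (section 5), any finite graph. -/
def PeelStatement : Prop := ∀ (V : Type u) [Fintype V] (G : SimpleGraph V) (l m : ℕ) (F : Finset V), 1 ≤ m →
  (∀ c, Cyc G c → (∀ v ∈ c, v ∈ F) → c.length ≤ l) →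
  ∃ Z ⊆ F, m * Z.card ≤ (l + 1) * F.card ∧
    ∀ v ∈ F \ Z, (Finset.univ.filter (fun w => Conn G (↑(F \ Z)) v w)).card < m

/-- START (Lemma 6). -/
def StartStatement : Prop := ∀ (V : Type u) [Fintype V] (G H : SimpleGraph V), VT G → ∀ d l s m : ℕ,
  (∀ v, dg G v ≤ d) → Opt G l H → 2 * m ≤ bn G s → 2 * (l + 1) * (2 * s * d + 1) ≤ m →
  Fintype.card V ≤ 2 * (2 * s * d + 1) * (cov H).card

/-- GEO: geodesics through a given vertex. -/
def GeoStatement : Prop := ∀ (V : Type u) [Fintype V] (G : SimpleGraph V), VT G → ∀ D, Diam G D →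
  (∀ x y, ∃ γ : ℕ → V, γ 0 = x ∧ γ (G.dist x y) = y ∧ Geo G γ (G.dist x y)) ∧
  (∀ L k, L ≤ D → k ≤ L → ∀ o, ∃ γ : ℕ → V, γ k = o ∧ Geo G γ L)

/-- LINE (L1). -/
def LineStatement : Prop := ∀ (V : Type u) [Fintype V] (G : SimpleGraph V), VT G → ∀ r w : ℕ, w = 2 * r + 1 →
  bn G (r + 15 * w) < 32 * bn G r → ∀ (γ : ℕ → V) (s : ℕ), Geo G (fun i => γ (s + i)) (30 * w) →
  ∀ y, G.dist (γ (s + 15 * w)) y ≤ 15 * w → ∃ i ≤ 30, G.dist y (γ (s + i * w)) ≤ 2 * r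

/-- LING (L2). -/
def LingStatement : Prop := ∀ (V : Type u) [Fintype V] (G : SimpleGraph V), VT G → ∀ D, Diam G D → ∀ r w : ℕ,
  w = 2 * r + 1 → bn G (r + 15 * w) < 32 * bn G r → 30 * w ≤ D → w * Fintype.card V ≤ 100000 * D * bn G r

/-! ### Group E: the one-dimensional end (section 8) -/

/-- common hypotheses of section 8 -/
structure OneDim {V : Type u} [Fintype V] (G : SimpleGraph V) (r w D : ℕ) (γ : ℕ → V) : Prop where
  vt : VT G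
  w_eq : w = 2 * r + 1
  lin : bn G (r + 15 * w) < 32 * bn G r
  geo : Geo G γ D
  long : 30 * w ≤ D

/-- OMEGA (8a, 8b and paths in `om`). `G.dist (γ 0) x` is the height of `x`. -/
def OmegaStatement : Prop := ∀ (V : Type u) [Fintype V] (G : SimpleGraph V) (r w D : ℕ) (γ : ℕ → V),
  OneDim G r w D γ →
  (∀ x ∈ om G γ w D, 20 * w ≤ G.dist (γ 0) x → G.dist (γ 0) x + 20 * w ≤ D → ∀ x', G.Adj x x' → x' ∈ om G γ w D) ∧
  (∀ a b, a ≤ b → w * ((om G γ w D).filter (fun x => a ≤ G.dist (γ 0) x ∧ G.dist (γ 0) x ≤ b)).card ≤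
    (b - a + 4 * w) * (32 * bn G r)) ∧
  (∀ a, ((om G γ w D).filter (fun x => a ≤ G.dist (γ 0) x ∧ G.dist (γ 0) x < a + w)).card ≤ 32 * bn G r) ∧
  (∀ a b, ∀ x ∈ om G γ w D, ∀ y ∈ om G γ w D, a ≤ G.dist (γ 0) x → a ≤ G.dist (γ 0) y → G.dist (γ 0) x ≤ b →
    G.dist (γ 0) y ≤ b → ∃ l, IsP G l ∧ l.head? = some x ∧ l.getLast? = some y ∧
      ∀ v ∈ l, v ∈ om G γ w D ∧ a ≤ G.dist (γ 0) v + w ∧ G.dist (γ 0) v ≤ b + w)

/-- BLOCK: a window met by at most one cycle in every block of `mu + 2` windows of length `30 w`. -/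
def BlockStatement : Prop := ∀ (V : Type u) [Fintype V] (G H : SimpleGraph V) (r w D : ℕ) (γ : ℕ → V) (l κ a : ℕ),
  OneDim G r w D γ → Opt G l H → κ = 32 * bn G r / w →
  4 * (30 * (4 * κ ^ 2 + 3) + 4) * (32 * bn G r) + 4 ≤ l → 20 * w ≤ a → a + 30 * (4 * κ ^ 2 + 3) * w + 20 * w ≤ D →
  ∃ a', a ≤ a' ∧ a' + 30 * w ≤ a + 30 * (4 * κ ^ 2 + 3) * w ∧
    ∀ x ∈ cov H, ∀ y ∈ cov H, x ∈ om G γ w D → y ∈ om G γ w D →
      a' + 5 * w ≤ G.dist (γ 0) x → G.dist (γ 0) x ≤ a' + 25 * w →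
      a' + 5 * w ≤ G.dist (γ 0) y → G.dist (γ 0) y ≤ a' + 25 * w → H.Reachable x y

/-- GLUEP: cycles `Dc 0, ..., Dc N` joined by disjoint connections `c 0, ..., c (N-1)` give a path through all of
them (longer arc of each cycle). -/
def GluepStatement : Prop := ∀ (V : Type u) [Fintype V] (G H : SimpleGraph V) (N : ℕ) (Dc : ℕ → Finset V)
  (c : ℕ → List V), CF G H → (∀ i ≤ N, Dc i ∈ cycs H) → (∀ i ≤ N, ∀ j ≤ N, i ≠ j → Dc i ≠ Dc j) →
  (∀ i < N, IsP G (c i) ∧ (∃ a ∈ Dc i, (c i).head? = some a) ∧ (∃ b ∈ Dc (i + 1), (c i).getLast? = some b) ∧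
    ∀ v ∈ (c i).tail.dropLast, v ∉ cov H) →
  (∀ i < N, ∀ j < N, i ≠ j → List.Disjoint (c i) (c j)) →
  ∃ P, IsP G P ∧ ∑ i ∈ Finset.range (N + 1), (Dc i).card ≤ 2 * P.length

/-- CHAINP: from the windows of BLOCK to a path. `τ 0 < τ 1 < ...` are the starts of the windows. -/
def ChainpStatement : Prop := ∀ (V : Type u) [Fintype V] (G H : SimpleGraph V) (r w D : ℕ) (γ : ℕ → V)
  (S : ℕ) (τ : ℕ → ℕ) (l : ℕ), OneDim G r w D γ → CF G H → (∀ v ∈ cov H, l ≤ (cyc H v).card) → 1 ≤ S →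
  20 * w ≤ τ 0 → τ S + 50 * w ≤ D → (∀ s < S, τ s + 30 * w ≤ τ (s + 1)) →
  (∀ s < S, ((om G γ w D).filter (fun x => τ s ≤ G.dist (γ 0) x ∧ G.dist (γ 0) x ≤ τ (s + 1) + 30 * w)).card * 3 < l) →
  (∀ s ≤ S, ∀ x ∈ cov H, ∀ y ∈ cov H, x ∈ om G γ w D → y ∈ om G γ w D →
      τ s + 5 * w ≤ G.dist (γ 0) x → G.dist (γ 0) x ≤ τ s + 25 * w →
      τ s + 5 * w ≤ G.dist (γ 0) y → G.dist (γ 0) y ≤ τ s + 25 * w → H.Reachable x y) →
  ∃ P, IsP G P ∧ ((cov H).filter (fun x => x ∈ om G γ w D ∧ τ 0 + 30 * w ≤ G.dist (γ 0) x ∧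
    G.dist (γ 0) x ≤ τ S)).card ≤ 4 * P.length

/-- END (Lemma 8). -/
def EndStatement : Prop := ∃ C : ℕ, ∀ (V : Type u) [Fintype V] (G H : SimpleGraph V), VT G → ∀ D, Diam G D →
  ∀ r w l : ℕ, w = 2 * r + 1 → bn G (r + 15 * w) < 32 * bn G r → 30 * w ≤ D → Opt G l H →
  C * (bn G r) ^ 3 ≤ l * w ^ 2 → 1 ≤ (cov H).card → ∃ P, IsP G P ∧ (cov H).card ≤ C * P.length

/-! ### Group F: chains of subgroups (section 6) -/

/-- LEVEL: the levels are connected vertex-transitive graphs of bounded degree. -/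
def LevelStatement : Prop := ∀ (Γ : Type u) [Group Γ] [Fintype Γ] (A0 : Finset Γ) (a : ℕ → Γ), Symm A0 →
  ∀ j, Symm (chT A0 a j) ∧ VT (lv (chT A0 a j)) ∧ ∀ v, dg (lv (chT A0 a j)) v ≤ A0.card + 2 * j

/-- CHAIN: existence of chains. -/
def ChainStatement : Prop := ∀ (Γ : Type u) [Group Γ] [Fintype Γ] (A A0 : Finset Γ), A0 ⊆ A →
  Subgroup.closure (A : Set Γ) = ⊤ → ∃ (k : ℕ) (a : ℕ → Γ), (∀ i < k, a i ∈ A) ∧
    (∀ i < k, a i ∉ Subgroup.closure (chT A0 a i : Set Γ)) ∧ Subgroup.closure (chT A0 a k : Set Γ) = ⊤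

/-- BALL4 (C1). -/
def Ball4Statement : Prop := ∀ (Γ : Type u) [Group Γ] [Fintype Γ] (A0 : Finset Γ) (a : ℕ → Γ) (k : ℕ), Symm A0 →
  (∀ i < k, a i ∉ Subgroup.closure (chT A0 a i : Set Γ)) → ∀ e, 4 * e ≤ k → ∀ j, 4 * e ≤ j →
  4 ^ e ≤ bn (lv (chT A0 a j)) e

/-- LIFT (C2). -/
def LiftStatement : Prop := ∀ (Γ : Type u) [Group Γ] [Fintype Γ] (T T' : Finset Γ), Symm T → Symm T' → T ⊆ T' →
  ∀ (l : ℕ) (x : ℝ), Rat (lv T) l x → Rat (lv T') l x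

/-! ### Group G: assembly -/

/-- NEXT (Cor 5). -/
def NextStatement : Prop := ∀ (V : Type u) [Fintype V] (G : SimpleGraph V), VT G → ∀ d l K r : ℕ,
  (∀ v, dg G v ≤ d) → 2 ≤ K → bn G r < l → 2 ^ 55 * (d + 1) ^ 3 * K ^ 3 * (r + 1) ≤ bn G r →
  ∀ x : ℝ, 0 < x → Rat G l x →
    ((∃ c, Cyc G c ∧ x * (Fintype.card V : ℝ) ≤ c.length) ∨ Rat G (2 * l) (x * (1 - 1 / (K - 1)))) ∧
    ((K : ℝ) * l ≤ x * (Fintype.card V : ℝ) → Rat G (2 * l) (x * (1 - 1 / (K - 1))))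

/-- GROWTH (L3, first part): no linear scale below `2 ^ e`. -/
def GrowthStatement : Prop := ∀ A B : ℕ, ∃ e0 : ℕ, ∀ e ≥ e0, ∀ (V : Type u) [Fintype V] (G : SimpleGraph V), VT G →
  ∀ D, Diam G D → ∀ d, (∀ v, dg G v ≤ d) → d + 1 ≤ A * (e + 1) → 2 ^ e ≤ Fintype.card V →
  (∀ i, 30 * 31 ^ i ≤ D → bn G ((31 ^ i - 1) / 2) < 2 ^ e →
    32 * bn G ((31 ^ i - 1) / 2) ≤ bn G ((31 ^ (i + 1) - 1) / 2)) →
  ∃ r, bn G r < 2 ^ e ∧ B * (e + 1) ^ 9 * (r + 1) ≤ bn G r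

/-- GROWTH2 (L3, second part), numerical. -/
def Growth2Statement : Prop := ∀ B C : ℕ, ∃ e0 : ℕ, ∀ e ≥ e0, ∀ i b : ℕ, 32 ^ i ≤ b → 2 ^ e ≤ C * b ^ 3 →
  B * (e + 1) ^ 9 * 31 ^ i ≤ b

/-- MAIN1 (Theorem 1), path form. -/
def Main1Statement : Prop := ∃ c : ℝ, 0 < c ∧ ∀ (Γ : Type u) [Group Γ] [Fintype Γ] (A : Finset Γ), Symm A →
  Subgroup.closure (A : Set Γ) = ⊤ → ∃ P : List Γ, IsP (cay A) P ∧ c * (Fintype.card Γ : ℝ) ≤ P.length

/-- MAIN2 (Theorem 2). -/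
def Main2Statement : Prop := ∀ (ε : ℝ), 0 < ε → ∀ m : ℕ, ∃ C : ℕ, ∀ (Γ : Type u) [Group Γ] [Fintype Γ]
  (A A0 : Finset Γ), Symm A → Symm A0 → A0 ⊆ A → A0.card ≤ m → Subgroup.closure (A : Set Γ) = ⊤ →
  (C ≤ Nat.card (Subgroup.closure (A0 : Set Γ))) →
  (∃ c : List Γ, Cyc (cay A0) c ∧ (∀ v ∈ c, v ∈ Subgroup.closure (A0 : Set Γ)) ∧
    (1 - ε) * (Nat.card (Subgroup.closure (A0 : Set Γ)) : ℝ) ≤ c.length) →
  (∀ D, Diam (cay A) D → (D : ℝ) * (Real.logb 2 (Fintype.card Γ)) ^ 10 ≤ Fintype.card Γ) →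
  ∃ c : List Γ, Cyc (cay A) c ∧ (1 - 2 * ε) * (Fintype.card Γ : ℝ) ≤ c.length

end Pool.Agent.Lib.MP_688fd0_co.LIN
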