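import Pool.Agent.Lib.MP_688fd0_co.LIN.Iface

/-!
Linear length in all Cayley graphs, phase 2: CYCLES instead of paths in the one-dimensional case.
-/

set_option autoImplicit false

namespace Pool.Agent.Lib.MP_688fd0_co.LIN

open Classical
open Pool.Agent.Lib.MP_688fd0_co.LP (IsP Conn Cyc Symm cay)

universe u

/-- STAY: two geodesics from the same point that are close at some time stay close. -/
def StayStatement : Prop := ∀ (V : Type u) [Fintype V] (G : SimpleGraph V), VT G → ∀ D, Diam G D → ∀ r w : ℕ,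
  w = 2 * r + 1 → bn G (r + 15 * w) < 32 * bn G r → 30 * w ≤ D → ∀ (g₁ g₂ : ℕ → V) (l₁ l₂ t : ℕ),
  Geo G g₁ l₁ → Geo G g₂ l₂ → g₁ 0 = g₂ 0 → l₁ ≤ l₂ → 15 * w ≤ t → t + 15 * w ≤ l₁ →
  G.dist (g₁ t) (g₂ t) ≤ 15 * w → ∀ t', t ≤ t' → t' + 4 * w ≤ l₁ → G.dist (g₁ t') (g₂ t') ≤ 2 * w

/-- RING: the two ends of a slab of `om` are joined by a path outside the slab. -/
def RingStatement : Prop := ∀ (V : Type u) [Fintype V] (G : SimpleGraph V) (r w D : ℕ) (γ : ℕ → V) (a b : ℕ),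
  OneDim G r w D γ → Diam G D → 300 * w ≤ D → 200 * w ≤ a → a + 100 * w ≤ b → b + 50 * w ≤ D →
  ∃ Q, IsP G Q ∧ Q.head? = some (γ a) ∧ Q.getLast? = some (γ b) ∧
    ∀ x ∈ Q, ¬ (x ∈ om G γ w D ∧ a + 5 * w ≤ G.dist (γ 0) x ∧ G.dist (γ 0) x + 5 * w ≤ b)

/-- GLUEC: cycles `Dc 0, ..., Dc N` (N >= 1) joined cyclically by disjoint connections `c 0, ..., c N` whose inner
vertices avoid all these cycles give a cycle with at least half of their vertices. -/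
def GluecStatement : Prop := ∀ (V : Type u) [Fintype V] (G H : SimpleGraph V) (N : ℕ) (Dc : ℕ → Finset V)
  (c : ℕ → List V), CF G H → 1 ≤ N → (∀ i ≤ N, Dc i ∈ cycs H) → (∀ i ≤ N, ∀ j ≤ N, i ≠ j → Dc i ≠ Dc j) →
  (∀ i ≤ N, IsP G (c i) ∧ (∃ a ∈ Dc i, (c i).head? = some a) ∧
    (∃ b ∈ Dc ((i + 1) % (N + 1)), (c i).getLast? = some b) ∧ ∀ v ∈ (c i).tail.dropLast, ∀ j ≤ N, v ∉ Dc j) →
  (∀ i ≤ N, ∀ j ≤ N, i ≠ j → List.Disjoint (c i) (c j)) →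
  ∃ cy, Cyc G cy ∧ ∑ i ∈ Finset.range (N + 1), (Dc i).card ≤ 2 * cy.length

/-- CHAINC: from the windows of BLOCK to a cycle; `Q` is the path of RING for a slightly larger slab. -/
def ChaincStatement : Prop := ∀ (V : Type u) [Fintype V] (G H : SimpleGraph V) (r w D : ℕ) (γ : ℕ → V)
  (S : ℕ) (τ : ℕ → ℕ) (l a b : ℕ) (Q : List V), OneDim G r w D γ → CF G H → (∀ v ∈ cov H, l ≤ (cyc H v).card) →
  1 ≤ S → 20 * w ≤ a → a + 10 * w ≤ τ 0 → τ S + 50 * w ≤ b → b + 20 * w ≤ D → (∀ s < S, τ s + 30 * w ≤ τ (s + 1)) →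
  IsP G Q → Q.head? = some (γ a) → Q.getLast? = some (γ b) →
  (∀ x ∈ Q, ¬ (x ∈ om G γ w D ∧ a + 5 * w ≤ G.dist (γ 0) x ∧ G.dist (γ 0) x + 5 * w ≤ b)) →
  (∀ s < S, ((om G γ w D).filter (fun x => τ s ≤ G.dist (γ 0) x ∧ G.dist (γ 0) x ≤ τ (s + 1) + 30 * w)).card * 3 < l) →
  (∀ s ≤ S, ∀ x ∈ cov H, ∀ y ∈ cov H, x ∈ om G γ w D → y ∈ om G γ w D →
      τ s + 5 * w ≤ G.dist (γ 0) x → G.dist (γ 0) x ≤ τ s + 25 * w →
      τ s + 5 * w ≤ G.dist (γ 0) y → G.dist (γ 0) y ≤ τ s + 25 * w → H.Reachable x y) →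
  1 ≤ ((cov H).filter (fun x => x ∈ om G γ w D ∧ τ 0 + 30 * w ≤ G.dist (γ 0) x ∧ G.dist (γ 0) x ≤ τ S)).card →
  ∃ cy, Cyc G cy ∧ ((cov H).filter (fun x => x ∈ om G γ w D ∧ τ 0 + 30 * w ≤ G.dist (γ 0) x ∧
    G.dist (γ 0) x ≤ τ S)).card ≤ 8 * cy.length

/-- ENDC (Lemma 8, cycle form). -/
def EndcStatement : Prop := ∃ C : ℕ, ∀ (V : Type u) [Fintype V] (G H : SimpleGraph V), VT G → ∀ D, Diam G D →
  ∀ r w l : ℕ, w = 2 * r + 1 → bn G (r + 15 * w) < 32 * bn G r → 30 * w ≤ D → Opt G l H →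
  C * (bn G r) ^ 3 ≤ l * w ^ 2 → 1 ≤ (cov H).card → ∃ c, Cyc G c ∧ (cov H).card ≤ C * c.length

/-- GEOC: a cycle of length about the diameter if some scale is linear. -/
def GeocStatement : Prop := ∀ (V : Type u) [Fintype V] (G : SimpleGraph V), VT G → ∀ D, Diam G D → ∀ r w : ℕ,
  w = 2 * r + 1 → bn G (r + 15 * w) < 32 * bn G r → 1000 * w ≤ D → ∃ c, Cyc G c ∧ D ≤ 4 * c.length

/-- MAIN1C (Theorem 1), cycle form. -/
def Main1cStatement : Prop := ∃ c : ℝ, 0 < c ∧ ∀ (Γ : Type u) [Group Γ] [Fintype Γ] (A : Finset Γ), Symm A →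
  Subgroup.closure (A : Set Γ) = ⊤ → 3 ≤ Fintype.card Γ → ∃ cy : List Γ, Cyc (cay A) cy ∧
    c * (Fintype.card Γ : ℝ) ≤ cy.length

end Pool.Agent.Lib.MP_688fd0_co.LIN
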